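import Mathlib
import Pool.Agent.Lib.MP_c7444d_nt.CF

set_option autoImplicit false

namespace Pool.Agent.Results.MP_c7444d_nt.MultiplesPeriods

open Pool.Agent.CFMult

/-- For a non-square `d` and `k ≥ 1`, the number `k` is the least period of the continued fraction digits
`a₁, a₂, …` of `n √d` for infinitely many `n ≥ 1` if and only if `k` is even or
`x² - d y² = -1` has an integer solution. -/
theorem result (d : ℕ) (hd : ¬ IsSquare d) (k : ℕ) (hk : 0 < k) :
    {n : ℕ | 0 < n ∧ IsLeast {T : ℕ | 0 < T ∧ ∀ i : ℕ,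
        (GenContFract.of ((n : ℝ) * Real.sqrt (d : ℝ))).partDens.get? (i + T) =
          (GenContFract.of ((n : ℝ) * Real.sqrt (d : ℝ))).partDens.get? i} k}.Infinite ↔
      (Even k ∨ ∃ x y : ℤ, x ^ 2 - (d : ℤ) * y ^ 2 = -1) := by
  have hθ : Irrational (Real.sqrt d) := irrational_sqrt_natCast_iff.mpr hd
  have e : {n : ℕ | 0 < n ∧ IsLeast {T : ℕ | 0 < T ∧ ∀ i : ℕ,
        (GenContFract.of ((n : ℝ) * Real.sqrt (d : ℝ))).partDens.get? (i + T) =
          (GenContFract.of ((n : ℝ) * Real.sqrt (d : ℝ))).partDens.get? i} k}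
      = {n : ℕ | IsPer (n * Real.sqrt d) k} \ {0} := by
    ext n
    simp only [Set.mem_ofPred_eq, Set.mem_sdiff, Set.mem_singleton_iff]
    rcases Nat.eq_zero_or_pos n with rfl | hn
    · simp
    · simp only [partDens_cq (hθ.natCast_mul hn.ne'), Option.some.injEq, Int.cast_inj, IsPer, hn,
        hn.ne', true_and, not_false_eq_true, and_true]
  rw [e, ← main d hd k hk]
  exact ⟨fun h => h.mono Set.sdiff_subset, fun h => h.sdiff (Set.finite_singleton 0)⟩

end Pool.Agent.Results.MP_c7444d_nt.MultiplesPeriods
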